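import Pool.Agent.Run7.h225.DetectMain

/-!
# Detection by cohomological field theories modulo the non-separating boundary

`CurveMaps` records the homology of the moduli spaces `M̄_{g,S}` of stable curves with the maps
induced by forgetting markings and gluing, `CurveHomology` its basic properties.  `CohFT` is a
cohomological field theory, a homology class `A` is `Undetected` if its intersection numbers with
every CohFT vanish, and `Determined M g S` is the statement of Q1 for `(g, S)`.

For a linear form `α` on the homology of some `M̄_{g₀,S₀}` that vanishes on an ideal containing the
images of the non-separating gluing maps and the classes glued from two odd classes, a CohFT is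
constructed in which `α` occurs.  So these are the only classes which may fail to be detected.
-/

set_option autoImplicit false

open Run7.h225

/-- Modulo the ideal generated by the classes pushed forward along the non-separating gluing maps,
the undetected classes are exactly the ideal generated by the classes glued from two classes of odd
degree along a separating node.  If the moduli spaces of rational curves have no odd homology, then
Q1 holds in genus `0`, and in genus `1` all undetected classes are supported on the non-separating
boundary and have even degree. -/
theorem Pool.Agent.Results.MP_bd1395_ag.CompactType.result (M : CurveMaps)
    (hM : CurveHomology M) :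
    (∀ (g : ℕ) (S : Type) (A : M.H g S),
      (∃ B ∈ nonsepIdeal M g S, ∃ C, Undetected M C ∧ A = B + C) ↔
        A ∈ nonsepIdeal M g S ⊔ oddIdeal M g S) ∧
    ((∀ S : Type, oddPart M 0 S = ⊥) →
      (∀ S : Type, Determined M 0 S) ∧
      ∀ (S : Type) (A : M.H 1 S), Undetected M A →
        A ∈ nonsepIdeal M 1 S ∧ A ∈ evenPart M 1 S) :=
  ⟨fun _ _ A => undetected_mod_nonsep hM A, fun h0 => ⟨determined_zero hM h0,
    fun _ _ hA => undetected_one hM h0 hA⟩⟩
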