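import Pool.Agent.Run7.h225.GradedMain

/-!
# Classes that are not seen by graded cohomological field theories

`CurveMaps` records the homology of the moduli spaces `M̄_{g,S}` of stable curves with the maps
induced by forgetting markings and gluing, `CurveHomology` its basic properties.  `GradedCohFT` is a
`ℤ/2`-graded CohFT (for an arbitrary sign convention, and without requiring a unit), and a homology
class is `GradedUndetected` if its intersection numbers with every graded CohFT vanish.

`chain a b` glues two classes with two extra markings in a row.  It turns composition of classes
into composition of operators, and gluing the two ends of a class `x` turns into a trace.  The trace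
of a nilpotent operator is zero.  So a class closed up from a class `x` with `x ∘ x = 0` has
intersection number zero with every CohFT.
-/

set_option autoImplicit false

open Run7.h225

/-- Classes closed up from a class which is nilpotent for chain composition are not detected by
CohFTs, graded or not; in particular, if `x ∘ x = 0` for all `x` in a space `U` of classes, this
holds for the classes closed up from `a ∘ b` with `a, b ∈ U`. -/
theorem Pool.Agent.Results.MP_bd1395_ag.GradedNilpotent.result (M : CurveMaps)
    (hM : CurveHomology M) :
    (∀ (g : ℕ) (S : Type) (A : M.H g S), GradedUndetected M A → Undetected M A) ∧
    NilpotentClosing M ∧ PairClosing M ∧ SelfGlueClosed M ∧ GlueClosed M := by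
  refine ⟨fun g S A hA => gradedUndetected_imp hM hA, ?_, ?_, ?_, ?_⟩
  · rintro g S d x hx ⟨n, hn⟩
    exact closeUp_mem hM rfl hx n hn
  · intro g S p U hUp hU a ha b hb
    exact close_mem hM U hUp hU ha hb
  · intro g S d A hd hA
    exact selfGlue_mem_graded rfl hd hA
  · intro g₁ g₂ S T p q A B hp hq hA
    exact glue_mem_graded rfl hp hq hA
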