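import Pool.Agent.Run7.h225.OddGlue

/-!
# Odd homology of moduli spaces of curves and detection by cohomological field theories

`CurveMaps` records the homology of the moduli spaces `M̄_{g,S}` of stable curves with the maps
induced by forgetting markings and gluing, `CurveHomology` its basic properties;
`IntersectionTheory` is about the cap product with the cotangent class at a marking, the pull-back
to the universal curve and the Gysin pull-back to a separating boundary divisor.  `CohFT` is a
cohomological field theory, a homology class `A` is `Undetected` if it has intersection number zero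
with every CohFT, and `Determined M g S` is the statement of Q1 for `(g, S)`.

The two sides of a separating node can be exchanged.  The metric `η` of a CohFT is symmetric while
the product of two odd homology classes is antisymmetric, so a class glued from two odd classes is
not seen by any CohFT.
-/

set_option autoImplicit false

open Run7.h225

/-- The classes of `M̄_{g,n}` that are not detected by CohFTs contain a space of dimension at least
`b_odd(M̄_{g₁,n₁}) · b_odd(M̄_{g₂,n₂})` for `(g, n) = (g₁ + g₂ + k, n₁ + n₂ + k + m)`; in particular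
Q1 fails for `(g, n)` if `M̄_{g₁,n₁}` and `M̄_{g₂,n₂}` have odd homology, and it fails for all
`g ≥ 2` and `n ≥ g + 20` if `M̄_{1,11}` has odd homology. -/
theorem Pool.Agent.Results.MP_bd1395_ag.OddClasses.result (M : CurveMaps) (hM : CurveHomology M)
    (I : IntersectionOps M) (hI : IntersectionTheory I) :
    (∀ g₁ g₂ n₁ n₂ k m : ℕ, n₁ ≠ 0 → n₂ ≠ 0 → Stable g₁ (Fin n₁) → Stable g₂ (Fin n₂) →
      ∃ W : Submodule ℚ (M.H (g₁ + g₂ + k) (Fin (n₁ + n₂ + k + m))),
        (∀ A ∈ W, Undetected M A) ∧
        Module.finrank ℚ (oddPart M g₁ (Fin n₁)) * Module.finrank ℚ (oddPart M g₂ (Fin n₂)) ≤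
          Module.finrank ℚ W) ∧
    ((∀ g n : ℕ, Stable g (Fin n) → Determined M g (Fin n)) →
      ∀ g n : ℕ, n ≠ 0 → Stable g (Fin n) → oddPart M g (Fin n) = ⊥) ∧
    (oddPart M 1 (Fin 11) ≠ ⊥ →
      ∀ g n : ℕ, 2 ≤ g → g + 20 ≤ n → ¬ Determined M g (Fin n)) := by
  refine ⟨fun g₁ g₂ n₁ n₂ k m hn₁ hn₂ h₁ h₂ => ⟨undetectedSub M _ _, fun A hA => hA,
    odd_mul_odd_le hM hI hn₁ hn₂ h₁ h₂ k m⟩, ?_, ?_⟩
  · intro hQ g n hn hst
    by_contra hne
    refine not_determined hM hI hn hn hst hst hne hne 0 0 (hQ _ _ ?_)
    rw [stable_fin] at *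
    omega
  · intro hodd g n hg hn
    have h1 : Stable 1 (Fin 11) := stable_fin.2 (by norm_num)
    have := not_determined hM hI (by norm_num) (by norm_num) h1 h1 hodd hodd (g - 2)
      (n - g - 20)
    have e1 : 1 + 1 + (g - 2) = g := by omega
    have e2 : 11 + 11 + (g - 2) + (n - g - 20) = n := by omega
    rwa [e1, e2] at this
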